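import Pool.Agent.Helper30.CIR.Statement
import Pool.Agent.Helper56.RZ.GoalsB

/-!
# Project CIR (MP_f32c9c_an): the packets

`M` closed submanifold of `ℝ^K`, `f` a diffeomorphism of `M` which commutes with the flow `A`, `F` an
eigenfunction of the flow, `F (A t x) = e^{2 π i om t} F x`, `‖F‖ ≤ 1`.  The perturbation is `g = f ∘ h`, `h x = A (th +
del x) x`, `del x = - arg (1 + c F x) / (π om)`; on the circle `w = e^{2 π i om s}` it is the Moebius map `w ↦
z (w + c conj F) / (1 + c F w)`, `z = e^{2 π i om th}`.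
-/

set_option autoImplicit false

open Set Filter Topology MeasureTheory

open scoped ContDiff

namespace Pool.Agent.Helper30.CIR

open Pool.Agent.Helper56.RZ

/-- `e^{2 π i τ}` -/
noncomputable def ee (τ : ℝ) : ℂ := Complex.exp ((2 * Real.pi * τ : ℝ) * Complex.I)

/-- time shift -/
noncomputable def del {K : ℕ} (c om : ℝ) (F : E K → ℂ) (x : E K) : ℝ :=
  -(1 + (c : ℂ) * F x).arg / (Real.pi * om)

/-- the perturbation of the identity -/
noncomputable def hh {K : ℕ} (A : ℝ → E K → E K) (c om th : ℝ) (F : E K → ℂ) (x : E K) : E K :=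
  A (th + del c om F x) x

/-- the inverse of `hh A c om th F` -/
noncomputable def hi {K : ℕ} (A : ℝ → E K → E K) (c om th : ℝ) (F : E K → ℂ) (x : E K) : E K :=
  hh A (-c) om 0 F (A (-th) x)

/-- derivative of `hh` along the flow -/
noncomputable def kap {K : ℕ} (c : ℝ) (F : E K → ℂ) (x : E K) : ℝ :=
  (1 - c ^ 2 * ‖F x‖ ^ 2) / ‖1 + (c : ℂ) * F x‖ ^ 2

/-- generator of the flow -/
noncomputable def gen {K : ℕ} (A : ℝ → E K → E K) (x : E K) : E K := deriv (fun t => A t x) 0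

/-- the perturbed map -/
noncomputable def gg {K : ℕ} (f : E K → E K) (A : ℝ → E K → E K) (c om th : ℝ) (F : E K → ℂ) :
    E K → E K := f ∘ hh A c om th F

/-- a flow with an eigenfunction of positive frequency `om` and norm at most `1` -/
structure Data {K : ℕ} (s : WithTop ℕ∞) (M : Set (E K)) (A : ℝ → E K → E K) (F : E K → ℂ)
    (om : ℝ) : Prop where
  flow : Flow s M A
  eig : Eigen s M A F om
  pos : 0 < om
  le1 : ∀ x ∈ M, ‖F x‖ ≤ 1

/-- PACKET JEN (Jensen's inequality).  Mathlib: `Polynomial.norm_coeff_le_choose_mul_mahlerMeasure 0 p` gives `‖p.coeff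
0‖ ≤ p.mahlerMeasure`, `Polynomial.logMahlerMeasure_eq_log_MahlerMeasure`, `logMahlerMeasure_def` (a
`circleAverage`, i.e. `(2 π)⁻¹ ∫_0^{2π}`), substitution `θ = 2 π τ`. -/
def StmtJEN : Prop := ∀ p : Polynomial ℂ, p.eval 0 = 1 →
  0 ≤ ∫ τ in (0 : ℝ)..1, Real.log ‖p.eval (ee τ)‖

/-- PACKET MOB (from JEN).  `‖w k τ‖ = 1` by induction: `‖w + conj a‖ = ‖1 + conj a conj w‖ = ‖1 + a w‖` for `‖w‖ = 1`, and
`1 + a w ≠ 0` since `‖a w‖ ≤ 1/2`.  Polynomials `U 0 = X`, `V 0 = 1`, `U (k+1) = X (U k + conj (a k) V k)`, `V (k+1) = V k +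
a k U k`: by induction `(V k).eval (ee τ) = ∏_{j<k} (1 + a j w j τ)`, `(U k).eval (ee τ) = w k τ * (V k).eval (ee
τ)`, `(U k).eval 0 = 0`, `(V k).eval 0 = 1`.  JEN for `V n`; `log` of the norm of the product is the sum. -/
def StmtMOB : Prop := ∀ (a : ℕ → ℂ), (∀ k, ‖a k‖ ≤ 1 / 2) → ∀ w : ℕ → ℝ → ℂ,
  (∀ τ, w 0 τ = ee τ) →
  (∀ k τ, w (k + 1) τ = ee τ * (w k τ + (starRingEnd ℂ) (a k)) / (1 + a k * w k τ)) →
  (∀ k τ, ‖w k τ‖ = 1) ∧ (∀ k, Continuous (w k)) ∧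
  ∀ n, 0 ≤ ∫ τ in (0 : ℝ)..1, ∑ k ∈ Finset.range n, Real.log ‖1 + a k * w k τ‖

/-- PACKET ORB (the integral inequality (*); from MOB).  Fix `x`; write `th = τ / om`.  Define `σ 0 τ = τ / om`, `σ (k+1) τ =
σ k τ + τ / om + del c om F (A (σ k τ) (f^[k] x))`.  By induction (`Commutes`, `Flow.add`) `g^[k] (A (τ/om) x) =
A (σ k τ) (f^[k] x)`, `g = gg f A c om (τ/om) F`.  With `w k τ = ee (om * σ k τ)`, `a k = c F (f^[k] x)` (`‖a k‖ ≤ 1/2`):
`F (g^[k] ..) = w k τ * F (f^[k] x)` (`Eigen`).  `ee (om * del) = conj (1 + u) / (1 + u)` with `u = c F (..) = a k w k τ`, because `e^{-2 i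
arg v} = conj v / v` for `v ≠ 0`; hence `w (k+1) = w k * ee τ * conj (1 + a w) / (1 + a w)` and `w conj (1 + a w) = w + conj a`
(`w conj w = 1`): the recursion of MOB (prove `‖w k τ‖ = 1` directly: `ee` of a real number).  `kap c F (g^[k] ..) = (1 - ‖a
k‖²) / ‖1 + a k w k τ‖²`, so `log kap = log (1 - ‖a k‖²) - 2 log ‖1 + a k w k τ‖`, `log (1 - u) ≤ - u`.  Integrate (all functions are
continuous in `τ`) and use MOB. -/
def StmtORB : Prop := ∀ (K : ℕ) (s : WithTop ℕ∞) (M : Set (E K)) (A : ℝ → E K → E K)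
  (f : E K → E K) (F : E K → ℂ) (om c : ℝ), Data s M A F om → MapsTo f M M → Commutes M f A →
  0 ≤ c → c ≤ 1 / 2 → ∀ x ∈ M, ∀ n : ℕ,
  ∫ τ in (0 : ℝ)..1, ∑ k ∈ Finset.range n,
      Real.log (kap c F ((gg f A c om (τ / om) F)^[k] (A (τ / om) x)))
    ≤ - (c ^ 2 * ∑ k ∈ Finset.range n, ‖F (f^[k] x)‖ ^ 2)

/-- PACKET ABS (measure theory).  `u n τ x = min (v n τ x) 0 ∈ [-C, 0]` tends to `0` for a.e. `x`, for every `τ ∈
[0, 1]`; so it does for a.e. `(τ, x)` (or do the two limits one after the other: dominated convergence in `x` for a.e. fixed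
`τ`, then in `τ`).  Hence `∫∫ u n → 0`, and `∫∫ u n ≤ ∫∫ v n ≤ - b n ≤ 0` (Fubini, `v n` is integrable on the product). -/
def StmtABS : Prop := ∀ (α : Type) [MeasurableSpace α] (m : Measure α) [IsFiniteMeasure m]
  (v : ℕ → ℝ → α → ℝ) (C : ℝ) (b : ℕ → ℝ),
  (∀ n, AEStronglyMeasurable (fun p : ℝ × α => v n p.1 p.2)
    ((volume.restrict (Icc (0 : ℝ) 1)).prod m)) →
  (∀ n, ∀ τ ∈ Icc (0 : ℝ) 1, ∀ᵐ x ∂m, |v n τ x| ≤ C) →
  (∀ τ ∈ Icc (0 : ℝ) 1, ∀ᵐ x ∂m, ∀ lam < (0 : ℝ), ∀ᶠ n in atTop, lam ≤ v n τ x) →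
  (∀ n, 0 ≤ b n) → (∀ n, ∫ x, (∫ τ in (0 : ℝ)..1, v n τ x) ∂m ≤ - b n) →
  Tendsto b atTop (𝓝 0)

/-- PACKET NUL (diffeomorphisms preserve null sets).  `h⁻¹ S ∩ M = h' (S ∩ M)`.  Cover `M` by finitely many (or
countably many, Lindelöf) charts `c` with `LebesgueChart c m`, such that `h' (M ∩ c.W ∩ ..)` is contained in a second chart
`c'`.  On an open subset of `c.V` the map `c'.φ ∘ h' ∘ c.ψ` is `C^1` and maps null sets to null sets
(`MeasureTheory.addHaar_image_eq_zero_of_differentiableOn_of_addHaar_eq_zero`); null sets of `m` inside `c.W ∩ M` correspond to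
Lebesgue null sets in `c.V` (for measurable sets by `LebesgueChart`; replace `S` by a measurable null superset). -/
def StmtNUL : Prop := ∀ (N K : ℕ) (M : Set (E K)) (m : Measure (E K)) (h h' : E K → E K),
  ClosedManifold N K M m → IsDiffeo 1 M h h' → ∀ S : Set (E K), m S = 0 → m (h ⁻¹' S ∩ M) = 0

/-- PACKET DIF (`hh` is a diffeomorphism).  `hh A c om th F x = A th (hh A c om 0 F x)`.  `y = hh A c om 0 F x`: `F y = F x conj
(1 + u) / (1 + u)`, `u = c F x` (see ORB), `1 - c F y = (1 - ‖u‖²) / (1 + u)`, so `arg (1 - c F y) = - arg (1 + u)` (`‖u‖ ≤ 1/2`, real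
part of `1 + u` positive) and `del (-c) om F y = - del c om F x`: `hh A (-c) om 0 F y = x`.  The same with `-c`.  Smoothness:
`arg z = (log z).im` is smooth on the right half plane (`Complex.contDiffAt_log`), compose with the smooth map `(t, x)
↦ A t x` on `univ ×ˢ M`. -/
def StmtDIF : Prop := ∀ (K : ℕ) (s : WithTop ℕ∞) (M : Set (E K)) (A : ℝ → E K → E K)
  (F : E K → ℂ) (om c th : ℝ), Data s M A F om → |c| ≤ 1 / 2 → s ≤ ∞ →
  IsDiffeo s M (hh A c om th F) (hi A c om th F) ∧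
  ContDiffOn ℝ s (fun p : (ℝ × ℝ) × E K => hh A p.1.1 om p.1.2 F p.2)
    ({p : ℝ × ℝ | |p.1| < 1} ×ˢ M) ∧
  ContDiffOn ℝ s (fun p : (ℝ × ℝ) × E K => hi A p.1.1 om p.1.2 F p.2)
    ({p : ℝ × ℝ | |p.1| < 1} ×ˢ M)

/-- PACKET XF (the generator).  `(t, x) ↦ A t x` is `C^1` on `univ ×ˢ M`; its derivative within this set applied to `(1, 0)` is the
`t`-derivative and is continuous (the first order term of a Taylor series, as in packet T3 of project RZ: at a point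
`ContDiffWithinAt ℝ 1` gives a neighbourhood and a continuous derivative `p 1`).  `A (t + u) x = A u (A t x)` gives the
derivative at `t`.  `gen A x` is the derivative at `0` of a curve in `M`, so it is in the tangent cone of `M` at `x` (`t ≥ 0`),
hence in the tangent space.  For `h`: the curve `h (A t x)` has the derivative `fderivWithin h M x (gen A x) = der M h x
(gen A x)` at `0` and is `A (u t) y`, with the derivative `u' • gen A (A (u 0) y)`, `A (u 0) y = h x`.  Last part: the curve `F (A t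
x) = e^{..} F x` has the derivative `2 π i om F x` at `0`, and it is `fderivWithin F M x (gen A x) = 0`. -/
def StmtXF : Prop := ∀ (K : ℕ) (s : WithTop ℕ∞) (M : Set (E K)) (A : ℝ → E K → E K), 1 ≤ s →
  Flow s M A → ContinuousOn (gen A) M ∧ ∀ x ∈ M,
  (∀ t, HasDerivAt (fun t => A t x) (gen A (A t x)) t) ∧ Pi M x (gen A x) = gen A x ∧
  (∀ (h : E K → E K) (y : E K) (u : ℝ → ℝ) (u' : ℝ), MapsTo h M M → ContDiffOn ℝ 1 h M → y ∈ M →
    (∀ᶠ t in 𝓝 (0 : ℝ), h (A t x) = A (u t) y) → HasDerivAt u u' 0 →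
    der M h x (gen A x) = u' • gen A (h x)) ∧
  ∀ (F : E K → ℂ) (om : ℝ), Eigen s M A F om → om ≠ 0 → gen A x = 0 → F x = 0

/-- PACKET DER (derivative of `hh` along the flow; from XF, DIF).  `hh (A t x) = A (u t) x`, `u t = t + th + del c om F (A t
x)`, `F (A t x) = e^{2 π i om t} F x`; with `a = c F x`, `v t = 1 + a e^{2 π i om t}` (positive real part), `arg v = Im log v`,
`d/dt del = - Im (2 π i om a e^{..} / v) / (π om) = - 2 Re (a e^{..} / v)`, at `0`: `u' = 1 - 2 Re (a / (1 + a)) = Re ((1 - a)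
/ (1 + a)) = (1 - ‖a‖²) / ‖1 + a‖² = kap`.  The second part: `1/4 ≤ ‖1 + a‖² ≤ 9/4`, `3/4 ≤ 1 - ‖a‖² ≤ 1`. -/
def StmtDER : Prop := ∀ (K : ℕ) (s : WithTop ℕ∞) (M : Set (E K)) (A : ℝ → E K → E K)
  (F : E K → ℂ) (om c th : ℝ), 1 ≤ s → s ≤ ∞ → Data s M A F om → |c| ≤ 1 / 2 →
  (∀ x ∈ M, der M (hh A c om th F) x (gen A x) = kap c F x • gen A (hh A c om th F x)) ∧
  ContinuousOn (kap c F) M ∧ ∀ x ∈ M, 1 / 3 ≤ kap c F x ∧ kap c F x ≤ 4

/-- PACKET ITE (iterates; from XF, DER, DIF and T2 of project RZ).  `der M f x (gen A x) = gen A (f x)` (XF with `u t = t`),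
chain rule, induction on `n` (`g^[n+1] = g ∘ g^[n]`). -/
def StmtITE : Prop := ∀ (K : ℕ) (s : WithTop ℕ∞) (M : Set (E K)) (A : ℝ → E K → E K)
  (f f' : E K → E K) (F : E K → ℂ) (om c th : ℝ), 1 ≤ s → s ≤ ∞ → Data s M A F om →
  |c| ≤ 1 / 2 → IsDiffeo s M f f' → Commutes M f A →
  (∀ x ∈ M, der M f x (gen A x) = gen A (f x)) ∧
  ∀ (n : ℕ), ∀ x ∈ M, der M ((gg f A c om th F)^[n]) x (gen A x) =
    (∏ k ∈ Finset.range n, kap c F ((gg f A c om th F)^[k] x)) •
      gen A ((gg f A c om th F)^[n] x)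

/-- PACKET CE0 (an invariant bounded vector field is central; with T2 of project RZ).  Let `n` be from `ineq`.  `a x = P 2 x (X
x)` is continuous on the compact set `M`; let `‖a‖` be maximal at `x0`, `x1 = f^[n] x0`.  `der M (f^[n]) x0 (X x0) = X
x1`, so `der M (f'^[n]) x1 (a x1) = a x0` (chain rule, invariance); if `a x1 ≠ 0` then `‖a x0‖ < ‖a x1‖ ≤ ‖a x0‖`, a
contradiction; so `a x1 = 0`, `a x0 = 0`, `a = 0` on `M`.  The same for `P 0` : let `‖P 0 y (X y)‖` be maximal at `y = f^[n] x`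
(`f^[n]` is onto); it is `‖der M (f^[n]) x (P 0 x (X x))‖ < ‖P 0 x (X x)‖` if not `0`.  Finally `X = P 0 X + P 1 X + P 2 X`. -/
def StmtCE0 : Prop := ∀ (K : ℕ) (M : Set (E K)) (f f' : E K → E K) (P : Fin 3 → E K → End K)
  (X : E K → E K), IsCompact M → IsDiffeo 1 M f f' → PartHyp M f f' P → ContinuousOn X M →
  (∀ x ∈ M, Pi M x (X x) = X x) → (∀ x ∈ M, der M f x (X x) = X (f x)) →
  ∀ x ∈ M, P 1 x (X x) = X x

/-- PACKET CE1 (an invariant line field close to the centre is central).  Let `n` be from `ineq` (for `g`).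
By compactness of the set of `(x, v, w)`, `x ∈ M`, `v`, `w` unit vectors with `Q 1 x v = v`, `Q 2 x w = w`, there is `θ > 1` with
`θ ‖G v‖ ‖w‖ ≤ ‖G w‖ ‖v‖` for all such `x, v, w` (not only unit vectors), `G = der M (g^[n]) x` (it is injective on the tangent
space).  `a x = Q 2 x (X x)`, `b x = Q 1 x (X x)`: `G (a x) = D a (g^[n] x)`, `G (b x) = D b (g^[n] x)`, `D > 0` (product of `n` values
of `kp`).  If `a x ≠ 0` for some `x`, then `b x ≠ 0` and, by induction, `‖a (g^[n j] x)‖ / ‖b (g^[n j] x)‖ ≥ θ^j ‖a x‖ / ‖b x‖`, which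
contradicts `‖a‖ ≤ ‖b‖`.  So `Q 2 x (X x) = 0`.  In the same way `Q 0`: for the pair `(0, 1)` the quotient `‖Q 0 X‖ / ‖Q 1 X‖` at
`x` is at most `θ^(-j)` times its value at `g'^[n j] x`, which is `≤ 1`. -/
def StmtCE1 : Prop := ∀ (K : ℕ) (M : Set (E K)) (g g' : E K → E K) (Q : Fin 3 → E K → End K)
  (X : E K → E K) (kp : E K → ℝ), IsCompact M → IsDiffeo 1 M g g' → PartHyp M g g' Q →
  (∀ x ∈ M, Pi M x (X x) = X x) → (∀ x ∈ M, 0 < kp x ∧ der M g x (X x) = kp x • X (g x)) →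
  (∀ x ∈ M, ‖Q 0 x (X x)‖ ≤ ‖Q 1 x (X x)‖ ∧ ‖Q 2 x (X x)‖ ≤ ‖Q 1 x (X x)‖) →
  ∀ x ∈ M, Q 1 x (X x) = X x

/-- PACKET PER (persistence; from `key`, T4, T5 of project RZ): captain. -/
def StmtPER : Prop := ∀ (K : ℕ) (M : Set (E K)) (f f' : E K → E K) (P : Fin 3 → E K → End K),
  IsCompact M → IsDiffeo 1 M f f' → PartHyp M f f' P → ∀ ε > 0, ∃ δ > 0, ∀ h h' : E K → E K,
  IsDiffeo 1 M h h' → (∀ x ∈ M, ‖h x - x‖ ≤ δ ∧ ‖der M h x - Pi M x‖ ≤ δ ∧
    ‖der M h' x - Pi M x‖ ≤ δ) →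
  ∃ Q : Fin 3 → E K → End K, PartHyp M (f ∘ h) (h' ∘ f') Q ∧ SplClose M ε P Q

/-- PACKET PAR (`C^r` dependence on parameters).  `G k (p, z) = iteratedFDeriv ℝ k (fun z => Φ (p, z)) z` is continuous on `U` for `k
≤ r`: it is the composition of `iteratedFDeriv ℝ k Φ (p, z)` (continuous on the open set `U`) with the linear inclusion `z ↦ (0,
z)` (`ContinuousLinearMap.iteratedFDeriv_comp_right` and translation; locally `Φ` can be cut off, or use the `within` versions on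
the open set).  `S` is compact, so there is a uniform `δ` (also with `(p', z) ∈ U`).  The iterated derivative of the difference is
the difference. -/
def StmtPAR : Prop := ∀ (T : Type) [NormedAddCommGroup T] [NormedSpace ℝ T] (N K r : ℕ)
  (U S : Set (T × E N)) (Φ : T × E N → E K), IsOpen U → ContDiffOn ℝ r Φ U → IsCompact S →
  S ⊆ U → ∀ ε > 0, ∃ δ > 0, ∀ p z, (p, z) ∈ S → ∀ p', ‖p' - p‖ ≤ δ → (p', z) ∈ U ∧ ∀ k ≤ r,
    ‖iteratedFDeriv ℝ k (fun z => Φ (p', z) - Φ (p, z)) z‖ ≤ ε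

/-- PACKET CRC (`C^r` closeness; from PAR).  `(f ∘ hh A c om th F) x = A (th + del c om F x) (f x)` on `M`.  First part: PAR
with `T = ℝ`, `U = univ ×ˢ V`, `Φ (th, z) = A th (f (ψ z))`, `S = {0} ×ˢ L i`.  Second: `T = ℝ × ℝ`, `U = {|c| < 1} ×ˢ V`,
`Φ ((c, th), z) = A (th + del c om F (ψ z)) (f (ψ z))`, `S = ({0} ×ˢ [0, Θ]) ×ˢ L i`, `p = (0, th)`, `p' = (c, th)`; `del 0 = 0`;
smoothness of `del` as in DIF.  Finitely many `i`.  The functions agree with the ones in `CrClose` on the open set `V`, so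
their iterated derivatives agree there. -/
def StmtCRC : Prop := ∀ (N K r : ℕ) (s : WithTop ℕ∞) (M : Set (E K)) (f f' : E K → E K)
  (A : ℝ → E K → E K), (r : WithTop ℕ∞) ≤ s → s ≤ ∞ → IsDiffeo s M f f' → Flow s M A →
  Commutes M f A → ∀ (ι : Type) [Finite ι] (c : ι → Chart N K M) (L : ι → Set (E N)),
  (∀ i, IsCompact (L i) ∧ L i ⊆ (c i).V) → ∀ ε > 0,
  (∃ θ0 > 0, ∀ th, |th| ≤ θ0 → CrClose r ε c L f (fun x => A th (f x))) ∧
  ∀ (F : E K → ℂ) (om Θ : ℝ), Data s M A F om → ∃ c0 > 0, c0 ≤ 1 / 2 ∧ ∀ b th : ℝ, |b| ≤ c0 →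
    0 ≤ th → th ≤ Θ → CrClose r ε c L (fun x => A th (f x)) (f ∘ hh A b om th F)

/-- PACKET JCD (the derivative depends continuously on parameters; with T2 of project RZ).  At a point `(p0, x0)` of `U ×ˢ M`,
`ContDiffWithinAt ℝ 1` gives a neighbourhood of it within `U ×ˢ M` on which `Φ (p, x) = B p x` has a continuous
derivative `D (p, x) : T × E K →L E K` within `U ×ˢ M`.  Restrict to the slice: `D (p, x) ∘ inr` is a derivative of `B p` within
`M` at `x`, so `(D (p, x) ∘ inr) * Pi M x = der M (B p) x` (T2, first part). -/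
def StmtJCD : Prop := ∀ (T : Type) [NormedAddCommGroup T] [NormedSpace ℝ T] (K : ℕ)
  (M : Set (E K)) (U : Set T) (B : T → E K → E K), IsOpen U → ContinuousOn (Pi M) M →
  ContDiffOn ℝ 1 (fun p : T × E K => B p.1 p.2) (U ×ˢ M) →
  ContinuousOn (fun p : T × E K => der M (B p.1) p.2) (U ×ˢ M)

/-- PACKET UNI (uniform `C^1` closeness; from JCD, DIF).  The maps `(th, x) ↦ A th x`, `der M (A th) x` on `ℝ × M`,
`((c, th), x) ↦ hh A c om th F x`, `der M (hh A c om th F) x`, and the same with `hi`, on `{|c| < 1} ×ˢ M` are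
continuous (JCD with `T = ℝ`, `T = ℝ × ℝ`), hence uniformly continuous on compact subsets; `A 0 = id`, `der M (A 0) x = Pi M x` (T2),
`hh A 0 om th F = A th`, `hi A 0 om th F = A (-th)` on `M` (`del 0 = 0`; T2, last part, for the derivatives). -/
def StmtUNI : Prop := ∀ (K : ℕ) (s : WithTop ℕ∞) (M : Set (E K)) (A : ℝ → E K → E K), 1 ≤ s →
  s ≤ ∞ → IsCompact M → ContinuousOn (Pi M) M → Flow s M A → ∀ δ > 0,
  (∃ θ0 > 0, ∀ th, |th| ≤ θ0 → ∀ x ∈ M, ‖A th x - x‖ ≤ δ ∧ ‖der M (A th) x - Pi M x‖ ≤ δ) ∧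
  ∀ (F : E K → ℂ) (om Θ : ℝ), Data s M A F om → ∃ c0 > 0, c0 ≤ 1 / 2 ∧ ∀ b th : ℝ, |b| ≤ c0 →
    0 ≤ th → th ≤ Θ → ∀ x ∈ M, ‖hh A b om th F x - A th x‖ ≤ δ ∧
    ‖der M (hh A b om th F) x - der M (A th) x‖ ≤ δ ∧
    ‖der M (hi A b om th F) x - der M (A (-th)) x‖ ≤ δ

/-- PACKET PIN (integrals with parameters).  For finite `s = n` by induction on `n`: continuity for `n = 0` (uniform on the
compact interval), and for `n + 1` differentiate under the integral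
(`hasFDerivAt_integral_of_dominated_of_fderiv_le`, local bound by compactness of `[0, 1]`), the derivative is the integral of
`(t, z) ↦ fderiv ℝ (fun z => G (t, z)) z`, which is `C^n` on `univ ×ˢ V` (it is `fderiv ℝ G (t, z) ∘ inr`).
(For the induction the target must be a general finite-dimensional or complete space.)  `s = ∞`: all `n`. -/
def StmtPIN : Prop := ∀ (N : ℕ) (s : WithTop ℕ∞) (V : Set (E N)) (G : ℝ × E N → ℂ), s ≤ ∞ →
  IsOpen V → ContDiffOn ℝ s G (univ ×ˢ V) →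
  ContDiffOn ℝ s (fun z => ∫ t in (0 : ℝ)..1, G (t, z)) V

/-- PACKET FOU (a nonconstant periodic function has a nonzero Fourier coefficient of positive order).  If all
coefficients of order `k ≥ 1` vanish, so do those of order `-k` (complex conjugates, `γ` is real), and a continuous periodic
function whose Fourier coefficients of order `≠ 0` vanish is constant (`fourierCoeff`, `AddCircle`; density of
trigonometric polynomials, or Parseval). -/
def StmtFOU : Prop := ∀ γ : ℝ → ℝ, Continuous γ → (∀ t, γ (t + 1) = γ t) → (∃ t, γ t ≠ γ 0) →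
  ∃ k : ℕ, 1 ≤ k ∧ ∫ t in (0 : ℝ)..1, ee (-(k * t)) * (γ t : ℂ) ≠ 0

/-- PACKET EIG (Fourier coefficients are eigenfunctions; from PIN).  In a chart `F ∘ ψ` is `C^s` on `V` (PIN with `G (t, z) = ee (-(k
t)) (A t (ψ z)) i`), so `F = (F ∘ ψ) ∘ φ` is `C^s` within `M` near every point of `M`.  `F (A u x) = ∫ ee (-(k t)) (A (t + u) x) i
dt = ee (k u) ∫ ee (-(k t')) (A t' x) i dt'` over `[u, u + 1]`, periodic integrand. -/
def StmtEIG : Prop := ∀ (N K : ℕ) (s : WithTop ℕ∞) (M : Set (E K)) (m : Measure (E K))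
  (A : ℝ → E K → E K) (i : Fin K) (k : ℕ), s ≤ ∞ → ClosedManifold N K M m → Flow s M A →
  Periodic M A → Eigen s M A (fun x => ∫ t in (0 : ℝ)..1, ee (-(k * t)) * ((A t x i : ℝ) : ℂ)) k

/-- PACKET SEL (selection; from FOU, EIG).  Every `x ∈ L` satisfies `Turns`: for a moved point `x` of a circle action some coordinate
of `t ↦ A t x` is not constant, FOU and EIG.  Divide `F` by a bound on the compact set `M`: `‖F‖ ≤ 1`.  The relatively open sets `{y ∈
M | η < ‖F y‖}` cover the compact set `L`, take a finite subcover `F_1, .., F_p`, `η_1, .., η_p`; `m (f^{-k} L) ≤ ∑_i m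
(f^{-k} {η_i ≤ ‖F_i‖})` (`m` finite), so the means of one of the summands do not tend to `0`. -/
def StmtSEL : Prop := ∀ (N K : ℕ) (s : WithTop ℕ∞) (M : Set (E K)) (m : Measure (E K))
  (f : E K → E K) (A : ℝ → E K → E K) (L : Set (E K)), s ≤ ∞ → ClosedManifold N K M m →
  MapsTo f M M → Flow s M A → IsCompact L → L ⊆ M → Heavy M m f L →
  (∀ x ∈ L, (Periodic M A ∧ Moved A x) ∨ Turns s M A x) →
  ∃ (F : E K → ℂ) (om η : ℝ), 0 < η ∧ Data s M A F om ∧ Heavy M m f {x | x ∈ M ∧ η ≤ ‖F x‖}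

/-- PACKET POW (powers; elementary).  `F^j` is an eigenfunction of frequency `j om`.  `∫ ‖F (f^[k] x)^j‖² ≥ η^(2j) m (f^{-k}
{η ≤ ‖F‖} ∩ M)` (the integrand is continuous on `M`, `m Mᶜ = 0`), so its means do not tend to `0`. -/
def StmtPOW : Prop := ∀ (N K : ℕ) (s : WithTop ℕ∞) (M : Set (E K)) (m : Measure (E K))
  (f : E K → E K) (A : ℝ → E K → E K) (F : E K → ℂ) (om η : ℝ) (j : ℕ), 1 ≤ j →
  ClosedManifold N K M m → MapsTo f M M → ContinuousOn f M → 0 < η → Data s M A F om →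
  Heavy M m f {x | x ∈ M ∧ η ≤ ‖F x‖} → Data s M A (fun x => F x ^ j) (j * om) ∧
  ¬ Tendsto (fun n : ℕ => (∑ k ∈ Finset.range n, ∫ x, ‖F (f^[k] x) ^ j‖ ^ 2 ∂m) / n) atTop (𝓝 0)

/-- PACKET MEA (some `th` is good; from ORB, ABS, NUL, DIF, DER).  Otherwise apply ABS with `v n τ x = (1/n) ∑_{k<n} log kap c F
(g^[k] (A (τ/om) x))`, `g = gg f A c om (τ/om) F`, `b n = c² (1/n) ∑_{k<n} ∫ ‖F (f^[k] x)‖²`.  `v n` is continuous on `[0, 1] ×
M`, `m Mᶜ = 0`, so it is a.e. strongly measurable; `|log kap| ≤ log 4`.  The a.e. hypothesis for `τ`: the assumption for `th = τ /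
om` and NUL for the diffeomorphism `A (τ/om)` of `M` (its inverse is `A (-τ/om)`).  The integral inequality: ORB divided by `n` and
integrated over `M` (for `n = 0` everything is `0`). -/
def StmtMEA : Prop := ∀ (N K : ℕ) (s : WithTop ℕ∞) (M : Set (E K)) (m : Measure (E K))
  (f f' : E K → E K) (A : ℝ → E K → E K) (F : E K → ℂ) (om c : ℝ), 1 ≤ s → s ≤ ∞ →
  ClosedManifold N K M m → IsDiffeo s M f f' → Commutes M f A → Data s M A F om → 0 < c →
  c ≤ 1 / 2 →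
  ¬ Tendsto (fun n : ℕ => (∑ k ∈ Finset.range n, ∫ x, ‖F (f^[k] x)‖ ^ 2 ∂m) / n) atTop (𝓝 0) →
  ∃ th : ℝ, 0 ≤ th ∧ th ≤ 1 / om ∧ ¬ ∀ᵐ x ∂m, ∀ lam < (0 : ℝ), ∀ᶠ n : ℕ in atTop,
    lam ≤ (∑ k ∈ Finset.range n, Real.log (kap c F ((gg f A c om th F)^[k] x))) / n

/-- PACKET NEG (conclusion; from ITE, DER).  Let `D n x = ∏_{k<n} kap (g^[k] x) > 0`, `l n x = (1/n) log D n x`.  `X = gen A` is bounded on
the compact set `M` (XF), central for `g` (hypothesis), `der M (g^[n]) x (X x) = D n x • X (g^[n] x)` (ITE).  If `X x = 0`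
then `X (g^[k] x) = 0` for all `k` (the derivatives: `D n x • X (g^[n] x) = 0`), so `F (g^[k] x) = 0` (XF), `kap = 1`, `l n x
= 0`.  If `X x ≠ 0` then `X (g^[n] x) ≠ 0` (`Z` injective: apply the inverse derivative, `hinj`) and `log ‖der (X x)‖ / n ≤ l n x + (log
C) / n`.  First part: if a.e. `x` is not `LowNeg`, then for a.e. `x` and all `lam < 0` eventually `lam ≤ l n x`, against the
hypothesis `hth`.  Second part: `FullBasin μ`, `φ = log (kap c F ·)` is continuous on `M`, so `l n x → lam0 = ∫ φ dμ` for a.e. `x`; `lam0 <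
0`, otherwise `hth` fails; `lam = lam0 / 2`; points with `X x = 0` have `l n x = 0`, so a.e. `X x ≠ 0`. -/
def StmtNEG : Prop := ∀ (K : ℕ) (s : WithTop ℕ∞) (M : Set (E K)) (m : Measure (E K))
  (f f' : E K → E K) (A : ℝ → E K → E K) (F : E K → ℂ) (om c th : ℝ)
  (Q : Fin 3 → E K → End K), 1 ≤ s → s ≤ ∞ → IsCompact M → m Mᶜ = 0 → IsDiffeo s M f f' →
  Commutes M f A → Data s M A F om → |c| ≤ 1 / 2 →
  (∀ x ∈ M, Q 1 x (gen A x) = gen A x) →
  (¬ ∀ᵐ x ∂m, ∀ lam < (0 : ℝ), ∀ᶠ n : ℕ in atTop,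
    lam ≤ (∑ k ∈ Finset.range n, Real.log (kap c F ((gg f A c om th F)^[k] x))) / n) →
  Negative M m (gg f A c om th F) Q

end Pool.Agent.Helper30.CIR
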