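import Pool.Agent.Helper30.CIR.Goals

set_option autoImplicit false

open Set Filter Topology MeasureTheory

open scoped ContDiff

namespace Pool.Agent.Helper30.CIR

open Pool.Agent.Helper56.RZ

theorem gFOU : StmtFOU := by
  intro γ hc hp ⟨t0, ht0⟩
  by_contra hcon
  push Not at hcon
  have hP : Function.Periodic (fun t => (γ t : ℂ)) 1 := fun t => by
    simp only [hp t]
  have hΓc : Continuous (hP.lift : AddCircle (1 : ℝ) → ℂ) :=
    continuous_coinduced_dom.2 (Complex.continuous_ofReal.comp hc)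
  set Γ : C(AddCircle (1 : ℝ), ℂ) := ⟨hP.lift, hΓc⟩ with hΓ
  have hΓv : ∀ t : ℝ, Γ (t : AddCircle (1 : ℝ)) = (γ t : ℂ) := fun t => rfl
  have : Fact ((0 : ℝ) < 1) := ⟨one_pos⟩
  have hf : ∀ n : ℤ, fourierCoeff Γ n = ∫ t in (0 : ℝ)..1, ee (-(n * t)) * (γ t : ℂ) := by
    intro n
    rw [fourierCoeff_eq_intervalIntegral Γ n 0]
    simp only [zero_add, div_one, one_smul]
    refine intervalIntegral.integral_congr fun t _ => ?_
    simp only [smul_eq_mul, hΓv]
    congr 1
    rw [fourier_coe_apply]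
    unfold ee
    congr 1
    push_cast
    ring
  have hpos : ∀ k : ℕ, 1 ≤ k → fourierCoeff Γ (k : ℤ) = 0 := by
    intro k hk
    rw [hf]
    exact_mod_cast hcon k hk
  have hneg : ∀ k : ℕ, 1 ≤ k → fourierCoeff Γ (-(k : ℤ)) = 0 := by
    intro k hk
    have h1 := hpos k hk
    rw [hf] at h1 ⊢
    have h2 : (starRingEnd ℂ) (∫ t in (0 : ℝ)..1, ee (-((k : ℤ) * t)) * (γ t : ℂ)) =
        ∫ t in (0 : ℝ)..1, ee (-(((-(k : ℤ) : ℤ) : ℝ) * t)) * (γ t : ℂ) := by
      rw [intervalIntegral.integral_of_le zero_le_one, intervalIntegral.integral_of_le zero_le_one,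
        ← integral_conj]
      refine integral_congr_ae (Eventually.of_forall fun t => ?_)
      simp only [map_mul, Complex.conj_ofReal]
      congr 1
      unfold ee
      rw [← Complex.exp_conj]
      simp only [map_mul, Complex.conj_ofReal, Complex.conj_I]
      congr 1
      push_cast
      ring
    rw [← h2, h1, map_zero]
  have hz : ∀ n : ℤ, n ≠ 0 → fourierCoeff Γ n = 0 := by
    intro n hn
    obtain ⟨k, rfl | rfl⟩ := n.eq_nat_or_neg
    · exact hpos k (Nat.one_le_iff_ne_zero.2 (by exact_mod_cast hn))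
    · exact hneg k (Nat.one_le_iff_ne_zero.2 (by
        intro h
        exact hn (by rw [h]; simp)))
  have hs : Summable (fourierCoeff Γ) :=
    summable_of_ne_finset_zero (s := {0}) fun n hn => hz n (by simpa using hn)
  have h1 := hasSum_fourier_series_of_summable hs
  have h2 : HasSum (fun n : ℤ => fourierCoeff Γ n • fourier (T := (1 : ℝ)) n)
      (fourierCoeff Γ 0 • fourier (T := (1 : ℝ)) 0) := by
    refine hasSum_single 0 fun n hn => ?_
    rw [hz n hn, zero_smul]
  have h3 := h1.unique h2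
  have h4 : ∀ t : ℝ, (γ t : ℂ) = fourierCoeff Γ 0 := by
    intro t
    have := congrArg (fun G : C(AddCircle (1 : ℝ), ℂ) => G (t : AddCircle (1 : ℝ))) h3
    simpa [hΓv] using this
  have h5 := (h4 t0).trans (h4 0).symm
  exact ht0 (by exact_mod_cast h5)

end Pool.Agent.Helper30.CIR
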