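import Pool.Agent.Helper30.CIR.Goals
import Pool.Agent.Helper56.RZ.AuxF

/-!
# Project CIR (MP_f32c9c_an): assembly
-/

set_option autoImplicit false

open Set Filter Topology MeasureTheory

open scoped ContDiff

namespace Pool.Agent.Helper30.CIR

open Pool.Agent.Helper56.RZ

theorem cont_Pi {K : ℕ} {M : Set (E K)} {f f' : E K → E K} {P : Fin 3 → E K → End K}
    (h : PartHyp M f f' P) : ContinuousOn (Pi M) M :=
  ((((h.proj 0).1).add (h.proj 1).1).add (h.proj 2).1).congr fun x hx => ((h.sum x hx).1).symm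

/-- the derivatives of the composed maps in the charts exist -/
theorem smooth_chart {N K : ℕ} {r : ℕ} {M : Set (E K)} (c : Chart N K M) {f : E K → E K}
    (hf : ContDiffOn ℝ r f M) {z : E N} (hz : z ∈ c.V) :
    ContDiffAt ℝ r (fun z => f (c.ψ z)) z := by
  have h1 : ContDiffOn ℝ r c.ψ c.V := c.smoothψ.of_le (by exact_mod_cast le_top)
  have h2 : ContDiffOn ℝ r (f ∘ c.ψ) c.V := hf.comp h1 fun z hz => (c.mapsψ z hz).1
  exact h2.contDiffAt (c.openV.mem_nhds hz)

theorem crclose_trans {N K r : ℕ} {M : Set (E K)} {a b : ℝ} {ι : Type} {c : ι → Chart N K M}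
    {L : ι → Set (E N)} (hL : ∀ i, IsCompact (L i) ∧ L i ⊆ (c i).V) {f g h : E K → E K}
    (hf : ContDiffOn ℝ r f M) (hg : ContDiffOn ℝ r g M) (hh : ContDiffOn ℝ r h M)
    (h1 : CrClose r a c L f g) (h2 : CrClose r b c L g h) : CrClose r (a + b) c L f h := by
  intro i k hk z hz
  have hzV := (hL i).2 hz
  have e : (fun z => h ((c i).ψ z) - f ((c i).ψ z)) =
      (fun z => g ((c i).ψ z) - f ((c i).ψ z)) + fun z => h ((c i).ψ z) - g ((c i).ψ z) := by
    funext z
    simp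
  have k1 : ((k : ℕ) : WithTop ℕ∞) ≤ (r : WithTop ℕ∞) := by exact_mod_cast hk
  have s1 : ContDiffAt ℝ k (fun z => g ((c i).ψ z) - f ((c i).ψ z)) z :=
    ((smooth_chart (c i) hg hzV).sub (smooth_chart (c i) hf hzV)).of_le k1
  have s2 : ContDiffAt ℝ k (fun z => h ((c i).ψ z) - g ((c i).ψ z)) z :=
    ((smooth_chart (c i) hh hzV).sub (smooth_chart (c i) hg hzV)).of_le k1
  rw [e, iteratedFDeriv_add_apply s1 s2]
  exact (norm_add_le _ _).trans (add_le_add (h1 i k hk z hz) (h2 i k hk z hz))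

theorem Flow.slice {K : ℕ} {s : WithTop ℕ∞} {M : Set (E K)} {A : ℝ → E K → E K}
    (h : Flow s M A) (t : ℝ) : ContDiffOn ℝ s (A t) M := by
  have h1 : ContDiffOn ℝ s (fun x : E K => ((t, x) : ℝ × E K)) M :=
    contDiffOn_const.prodMk contDiffOn_id
  exact h.smooth.comp h1 fun x hx => ⟨mem_univ _, hx⟩

theorem fin (hXF : StmtXF) (hDIF : StmtDIF) (hITE : StmtITE) (hCE0 : StmtCE0)
    (hCE1 : StmtCE1) (hPER : StmtPER) (hCRC : StmtCRC) (hUNI : StmtUNI) (hSEL : StmtSEL)
    (hPOW : StmtPOW) (hMEA : StmtMEA) (hNEG : StmtNEG) (hDER : StmtDER) : StmtFIN := by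
  intro N K r s M m f f' P A L hr hrs hs hCM hf hP hA hfA hL hLM hHe hT
  intro ι _ c Lc hLc ε hε
  have h1s : (1 : WithTop ℕ∞) ≤ s := le_trans (by exact_mod_cast hr) hrs
  have hf1 : IsDiffeo 1 M f f' := hf.of_le' h1s
  have hM := hCM.compact
  have hPi := cont_Pi hP
  obtain ⟨hgenc, hgen⟩ := hXF K s M A h1s hA
  -- the generator is central for `f`
  obtain ⟨F0, om0, η, hη, hD0, hHe0⟩ := hSEL N K s M m f A L hs hCM hf.maps hA hL hLM hHe hT
  have hfX : ∀ x ∈ M, der M f x (gen A x) = gen A (f x) :=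
    (hITE K s M A f f' F0 om0 0 0 h1s hs hD0 (by simp) hf hfA).1
  have hPX : ∀ x ∈ M, P 1 x (gen A x) = gen A x :=
    hCE0 K M f f' P (gen A) hM hf1 hP hgenc (fun x hx => (hgen x hx).2.1) hfX
  -- constants
  have hε4 : 0 < min ε (1 / 4) := lt_min hε (by norm_num)
  obtain ⟨δ, hδ, hper⟩ := hPER K M f f' P hM hf1 hP (min ε (1 / 4)) hε4
  obtain ⟨⟨θ1, hθ1, hu1⟩, hu2⟩ := hUNI K s M A h1s hs hM hPi hA (δ / 2) (by positivity)
  obtain ⟨⟨θ2, hθ2, hc1⟩, hc2⟩ := hCRC N K r s M f f' A hrs hs hf hA hfA ι c Lc hLc (ε / 2)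
    (by positivity)
  obtain ⟨j, hj⟩ := exists_nat_gt (max 1 (1 / (om0 * min θ1 θ2)))
  have hj1 : 1 ≤ j := by
    have : (1 : ℝ) < j := (le_max_left _ _).trans_lt hj
    exact_mod_cast this.le
  have hom0 := hD0.pos
  have hθ : 0 < min θ1 θ2 := lt_min hθ1 hθ2
  obtain ⟨hD, hnt⟩ := hPOW N K s M m f A F0 om0 η j hj1 hCM hf.maps hf.smooth.continuousOn hη hD0
    hHe0
  set F : E K → ℂ := fun x => F0 x ^ j with hF
  set om : ℝ := j * om0 with hom
  have hompos : 0 < om := hD.pos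
  have hΘ : 1 / om ≤ min θ1 θ2 := by
    have h1 : 1 / (om0 * min θ1 θ2) < j := (le_max_right _ _).trans_lt hj
    rw [div_lt_iff₀ (by positivity)] at h1
    rw [div_le_iff₀ hompos, hom]
    nlinarith
  obtain ⟨c3, hc3, hc3', hu3⟩ := hu2 F om (1 / om) hD
  obtain ⟨c4, hc4, hc4', hc5⟩ := hc2 F om (1 / om) hD
  set b : ℝ := min c3 c4 with hb
  have hb0 : 0 < b := lt_min hc3 hc4
  have hb3 : |b| ≤ c3 := by rw [abs_of_pos hb0]; exact min_le_left _ _
  have hb4 : |b| ≤ c4 := by rw [abs_of_pos hb0]; exact min_le_right _ _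
  have hb2 : |b| ≤ 1 / 2 := hb3.trans hc3'
  have hb2' : b ≤ 1 / 2 := by rwa [abs_of_pos hb0] at hb2
  obtain ⟨th, hth0, hth1, hth⟩ := hMEA N K s M m f f' A F om b h1s hs hCM hf hfA hD hb0 hb2'
    hnt
  have hthθ : |th| ≤ min θ1 θ2 := by rw [abs_of_nonneg hth0]; exact hth1.trans hΘ
  have hth'θ : |(-th)| ≤ min θ1 θ2 := by rw [abs_neg]; exact hthθ
  -- the perturbation
  obtain ⟨hdif, -, -⟩ := hDIF K s M A F om b th hD hb2 hs
  have hdif1 : IsDiffeo 1 M (hh A b om th F) (hi A b om th F) := hdif.of_le' h1s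
  obtain ⟨Q, hQ, hQc⟩ := hper (hh A b om th F) (hi A b om th F) hdif1 (by
    intro x hx
    obtain ⟨a1, a2, a3⟩ := hu3 b th hb3 hth0 hth1 x hx
    obtain ⟨b1, b2⟩ := hu1 th (hthθ.trans (min_le_left _ _)) x hx
    obtain ⟨-, b3⟩ := hu1 (-th) (hth'θ.trans (min_le_left _ _)) x hx
    refine ⟨?_, ?_, ?_⟩
    · calc ‖hh A b om th F x - x‖ = ‖(hh A b om th F x - A th x) + (A th x - x)‖ := by
            rw [sub_add_sub_cancel]
        _ ≤ _ := norm_add_le _ _
        _ ≤ δ := by linarith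
    · calc ‖der M (hh A b om th F) x - Pi M x‖ = ‖(der M (hh A b om th F) x - der M (A th) x) +
            (der M (A th) x - Pi M x)‖ := by rw [sub_add_sub_cancel]
        _ ≤ _ := norm_add_le _ _
        _ ≤ δ := by linarith
    · calc ‖der M (hi A b om th F) x - Pi M x‖ = ‖(der M (hi A b om th F) x - der M (A (-th)) x) +
            (der M (A (-th)) x - Pi M x)‖ := by rw [sub_add_sub_cancel]
        _ ≤ _ := norm_add_le _ _
        _ ≤ δ := by linarith)
  have hg : IsDiffeo s M (f ∘ hh A b om th F) (hi A b om th F ∘ f') := hf.comp' hdif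
  have hg1 : IsDiffeo 1 M (f ∘ hh A b om th F) (hi A b om th F ∘ f') := hg.of_le' h1s
  have hfr : ContDiffOn ℝ r f M := hf.smooth.of_le hrs
  have hAfr : ContDiffOn ℝ r (fun x => A th (f x)) M :=
    ((hA.slice th).of_le hrs).comp hfr hf.maps
  have hgr : ContDiffOn ℝ r (f ∘ hh A b om th F) M := hg.smooth.of_le hrs
  -- the generator is central for `g`
  have hQX : ∀ x ∈ M, Q 1 x (gen A x) = gen A x := by
    refine hCE1 K M (f ∘ hh A b om th F) (hi A b om th F ∘ f') Q (gen A) (kap b F) hM hg1 hQ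
      (fun x hx => (hgen x hx).2.1) ?_ ?_
    · intro x hx
      have h3 := (hDER K s M A F om b th h1s hs hD hb2).2.2 x hx
      have h4 := (hITE K s M A f f' F om b th h1s hs hD hb2 hf hfA).2 1 x hx
      refine ⟨by linarith [h3.1], ?_⟩
      simpa [gg] using h4
    · intro x hx
      have hor := hP.orth x hx
      have h0 : P 0 x (gen A x) = 0 := by
        rw [← hPX x hx]
        exact DFunLike.congr_fun (hor 0 1 (by decide)) (gen A x)
      have h2 : P 2 x (gen A x) = 0 := by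
        rw [← hPX x hx]
        exact DFunLike.congr_fun (hor 2 1 (by decide)) (gen A x)
      have hq : ∀ i, ‖Q i x (gen A x) - P i x (gen A x)‖ ≤ 1 / 4 * ‖gen A x‖ := by
        intro i
        have h5 : Q i x (gen A x) - P i x (gen A x) = (Q i x - P i x) (gen A x) := rfl
        rw [h5]
        refine ((Q i x - P i x).le_opNorm _).trans ?_
        exact mul_le_mul_of_nonneg_right ((hQc x hx i).trans (min_le_right _ _)) (norm_nonneg _)
      have q0 := hq 0
      have q1 := hq 1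
      have q2 := hq 2
      rw [h0, sub_zero] at q0
      rw [h2, sub_zero] at q2
      rw [hPX x hx] at q1
      have q3 : ‖gen A x‖ ≤ ‖Q 1 x (gen A x)‖ + ‖Q 1 x (gen A x) - gen A x‖ := by
        have := norm_sub_le (Q 1 x (gen A x)) (Q 1 x (gen A x) - gen A x)
        rwa [sub_sub_cancel] at this
      constructor <;> linarith [norm_nonneg (gen A x)]
  refine ⟨f ∘ hh A b om th F, hi A b om th F ∘ f', Q, hg, hQ, ?_, ?_, ?_⟩
  · have := crclose_trans hLc hfr hAfr hgr (hc1 th (hthθ.trans (min_le_right _ _)))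
      (hc5 b th hb4 hth0 hth1)
    rwa [add_halves] at this
  · exact fun x hx i => (hQc x hx i).trans (min_le_left _ _)
  · exact hNEG K s M m f f' A F om b th Q h1s hs hM hCM.null hf hfA hD hb2 hQX hth

end Pool.Agent.Helper30.CIR
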