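import Pool.Agent.Helper30.CIR.Goals

set_option autoImplicit false

open Set Filter Topology MeasureTheory

open scoped ContDiff

namespace Pool.Agent.Helper30.CIR

open Pool.Agent.Helper56.RZ

theorem heavy_mono {K : ℕ} {M : Set (E K)} {m : Measure (E K)} (hm : m univ ≠ ⊤)
    {f : E K → E K} {S T : Set (E K)} (hST : S ⊆ T) (h : Heavy M m f S) : Heavy M m f T := by
  have : IsFiniteMeasure m := ⟨lt_top_iff_ne_top.2 hm⟩
  intro hT
  refine h (squeeze_zero (fun n => by positivity) (fun n => ?_) hT)
  refine div_le_div_of_nonneg_right (Finset.sum_le_sum fun k _ => ?_) (Nat.cast_nonneg n)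
  exact ENNReal.toReal_mono (measure_ne_top _ _)
    (measure_mono (inter_subset_inter_left _ (preimage_mono hST)))

theorem heavy_union {K : ℕ} {M : Set (E K)} {m : Measure (E K)} (hm : m univ ≠ ⊤)
    {f : E K → E K} {S T : Set (E K)} (h : Heavy M m f (S ∪ T)) :
    Heavy M m f S ∨ Heavy M m f T := by
  have : IsFiniteMeasure m := ⟨lt_top_iff_ne_top.2 hm⟩
  by_contra hcon
  push Not at hcon
  obtain ⟨h1, h2⟩ := hcon
  unfold Heavy at h1 h2
  rw [not_not] at h1 h2
  have h3 := h1.add h2
  rw [add_zero] at h3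
  refine h (squeeze_zero (fun n => by positivity) (fun n => ?_) h3)
  rw [← add_div, ← Finset.sum_add_distrib]
  refine div_le_div_of_nonneg_right (Finset.sum_le_sum fun k _ => ?_) (Nat.cast_nonneg n)
  rw [← ENNReal.toReal_add (measure_ne_top _ _) (measure_ne_top _ _)]
  refine ENNReal.toReal_mono (ENNReal.add_ne_top.2 ⟨measure_ne_top _ _, measure_ne_top _ _⟩) ?_
  rw [preimage_union, union_inter_distrib_right]
  exact measure_union_le _ _

theorem gSEL (hFOU : StmtFOU) (hEIG : StmtEIG) : StmtSEL := by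
  intro N K s M m f A L hs hM hf hA hL hLM hH hx
  -- every point turns
  have hT : ∀ x ∈ L, Turns s M A x := by
    intro x hxL
    rcases hx x hxL with ⟨hper, t0, ht0⟩ | h
    · have hxM := hLM hxL
      obtain ⟨i, hi⟩ : ∃ i, A t0 x i ≠ x i := by
        by_contra hcon
        push Not at hcon
        exact ht0 (PiLp.ext hcon)
      have hc : Continuous fun t => A t x i := by
        have h1 : ContinuousOn (fun p : ℝ × E K => A p.1 p.2) (univ ×ˢ M) := hA.smooth.continuousOn
        have h2 : Continuous fun t : ℝ => A t x := by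
          exact h1.comp_continuous (f := fun t : ℝ => ((t, x) : ℝ × E K)) (by fun_prop)
            (fun t => ⟨mem_univ _, hxM⟩)
        fun_prop
      have hp : ∀ t, A (t + 1) x i = A t x i := by
        intro t
        rw [add_comm, hA.add 1 t x hxM, hper _ (hA.maps t hxM)]
      obtain ⟨k, hk1, hk⟩ := hFOU (fun t => A t x i) hc hp ⟨t0, by
        simp only [hA.zero x hxM]
        exact hi⟩
      exact ⟨_, k, by exact_mod_cast hk1, hEIG N K s M m A i k hs hM hA hper, hk⟩
    · exact h
  have key : Heavy M m f L → ∃ (F : E K → ℂ) (om η : ℝ), 0 < η ∧ Data s M A F om ∧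
      Heavy M m f {x | x ∈ M ∧ η ≤ ‖F x‖} := by
    refine hL.induction_on (p := fun S => Heavy M m f S → ∃ (F : E K → ℂ) (om η : ℝ), 0 < η ∧
      Data s M A F om ∧ Heavy M m f {x | x ∈ M ∧ η ≤ ‖F x‖}) ?_ ?_ ?_ ?_
    · intro h
      exfalso
      apply h
      simp
    · intro S T hST hT' hS
      exact hT' (heavy_mono hM.finite hST hS)
    · intro S T h1 h2 h
      rcases heavy_union hM.finite h with h | h
      · exact h1 h
      · exact h2 h
    · intro x hxL
      obtain ⟨F, om, hom, ⟨hF1, hF2⟩, hF3⟩ := hT x hxL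
      obtain ⟨C, hC⟩ := hM.compact.exists_bound_of_continuousOn hF1.continuousOn
      have hxM := hLM hxL
      have hC0 : 0 < C := (norm_pos_iff.2 hF3).trans_le (hC x hxM)
      have hCc : (C : ℂ) ≠ 0 := by exact_mod_cast hC0.ne'
      set G : E K → ℂ := fun y => F y / C with hG
      have hn : ∀ y, ‖G y‖ = ‖F y‖ / C := by
        intro y
        rw [hG]
        simp only [norm_div, Complex.norm_real, Real.norm_eq_abs, abs_of_pos hC0]
      have hD : Data s M A G om := by
        refine ⟨hA, ⟨hF1.div_const _, ?_⟩, hom, ?_⟩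
        · intro t y hy
          show F (A t y) / C = _ * (F y / C)
          rw [hF2 t y hy]
          ring
        · intro y hy
          rw [hn, div_le_one hC0]
          exact hC y hy
      have hGx : 0 < ‖G x‖ := by
        rw [hn]
        exact div_pos (norm_pos_iff.2 hF3) hC0
      refine ⟨{y | y ∈ M ∧ ‖G x‖ / 2 ≤ ‖G y‖}, ?_, fun h => ⟨G, om, ‖G x‖ / 2, by positivity,
        hD, h⟩⟩
      have h1 : ContinuousWithinAt (fun y => ‖G y‖) L x :=
        ((hD.eig.1.continuousOn x hxM).mono hLM).norm
      have h2 : {y | ‖G x‖ / 2 < ‖G y‖} ∈ 𝓝[L] x :=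
        h1 (Ioi_mem_nhds (by linarith))
      filter_upwards [h2, self_mem_nhdsWithin] with y hy hyL
      exact ⟨hLM hyL, le_of_lt hy⟩
  exact key hH

end Pool.Agent.Helper30.CIR
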