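import Pool.Agent.Helper30.CIR.Fin
import Pool.Agent.Helper66.CIR.ORB
import Pool.Agent.Helper14.CIR.ABS
import Pool.Agent.Helper78.CIR.PNUL
import Pool.Agent.Helper7.CIR.DIF
import Pool.Agent.Helper93.CIR.XF
import Pool.Agent.Helper57.CIR.DER
import Pool.Agent.Helper48.CIR.ITE
import Pool.Agent.Helper77.CIR.CE1
import Pool.Agent.Helper70.CIR.CRC
import Pool.Agent.Helper17.CIR.JCD
import Pool.Agent.Helper72.CIR.UNI
import Pool.Agent.Helper45.CIR.PIN
import Pool.Agent.Helper12.CIR.EIG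
import Pool.Agent.Helper86.CIR.POW
import Pool.Agent.Helper26.CIR.NEG
import Pool.Agent.Helper50.CIR.JEN
import Pool.Agent.Helper95.CIR.MOB
import Pool.Agent.Helper56.CIR.PER
import Pool.Agent.Helper44.CIR.CE0
import Pool.Agent.Helper41.CIR.PAR
import Pool.Agent.Helper90.CIR.MEA
import Pool.Agent.Helper30.CIR.SEL
import Pool.Agent.Helper30.CIR.FOU

/-!
# Project CIR (MP_f32c9c_an): the theorem
-/

set_option autoImplicit false

namespace Pool.Agent.Helper30.CIR

open Pool.Agent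

theorem final : StmtFIN := by
  have hXF : StmtXF := Helper93.CIR.gXF
  have hDIF : StmtDIF := Helper7.CIR.gDIF
  have hDER : StmtDER := Helper57.CIR.gDER hXF hDIF
  have hITE : StmtITE := Helper48.CIR.gITE hXF hDER
  have hUNI : StmtUNI := Helper72.CIR.gUNI Helper17.CIR.gJCD hDIF
  have hEIG : StmtEIG := Helper12.CIR.gEIG Helper45.CIR.gPIN
  have hMOB : StmtMOB := Helper95.CIR.gMOB Helper50.CIR.gJEN
  have hORB : StmtORB := Helper66.CIR.gORB hMOB
  have hABS : StmtABS := Helper14.CIR.gABS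
  have hNUL : StmtNUL := Helper78.CIR.gNUL
  have hNEG : StmtNEG := Helper26.CIR.gNEG hITE hDER hXF
  have hCRC : StmtCRC := Helper70.CIR.gCRC Helper41.CIR.gPAR
  have hMEA : StmtMEA := Helper90.CIR.gMEA hORB hABS hNUL hDIF hDER
  exact fin hXF hDIF hITE Helper44.CIR.gCE0 Helper77.CIR.gCE1 Helper56.CIR.gPER hCRC hUNI
    (gSEL gFOU hEIG) Helper86.CIR.gPOW hMEA hNEG hDER

end Pool.Agent.Helper30.CIR
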