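import Pool.Agent.Helper56.RZ.Statement

/-!
# Project CIR (MP_f32c9c_an): diffeomorphisms with a circle symmetry, definitions of the statement

`M` is a closed submanifold of `ℝ^K` (definitions of Helper56, project RZ).
-/

set_option autoImplicit false

open Set Filter Topology MeasureTheory

open scoped ContDiff

namespace Pool.Agent.Helper30.CIR

open Pool.Agent.Helper56.RZ

/-- `A t`, `t ∈ ℝ`, is a flow of class `C^s` on `M` (only the restriction to `M` matters) -/
structure Flow {K : ℕ} (s : WithTop ℕ∞) (M : Set (E K)) (A : ℝ → E K → E K) : Prop where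
  maps : ∀ t, MapsTo (A t) M M
  zero : ∀ x ∈ M, A 0 x = x
  add : ∀ t u, ∀ x ∈ M, A (t + u) x = A t (A u x)
  smooth : ContDiffOn ℝ s (fun p : ℝ × E K => A p.1 p.2) (univ ×ˢ M)

/-- `f` commutes with the flow -/
def Commutes {K : ℕ} (M : Set (E K)) (f : E K → E K) (A : ℝ → E K → E K) : Prop :=
  ∀ t, ∀ x ∈ M, f (A t x) = A t (f x)

/-- the flow is an action of the circle `ℝ / ℤ` -/
def Periodic {K : ℕ} (M : Set (E K)) (A : ℝ → E K → E K) : Prop := ∀ x ∈ M, A 1 x = x

/-- `x` is not a fixed point of the flow -/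
def Moved {K : ℕ} (A : ℝ → E K → E K) (x : E K) : Prop := ∃ t, A t x ≠ x

/-- `F` is a `C^s` eigenfunction of the flow: `F (A t x) = e^{2 π i om t} F x` -/
def Eigen {K : ℕ} (s : WithTop ℕ∞) (M : Set (E K)) (A : ℝ → E K → E K) (F : E K → ℂ) (om : ℝ) :
    Prop :=
  ContDiffOn ℝ s F M ∧
    ∀ t, ∀ x ∈ M, F (A t x) = Complex.exp ((2 * Real.pi * om * t : ℝ) * Complex.I) * F x

/-- some `C^s` eigenfunction of positive frequency does not vanish at `x` -/
def Turns {K : ℕ} (s : WithTop ℕ∞) (M : Set (E K)) (A : ℝ → E K → E K) (x : E K) : Prop :=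
  ∃ (F : E K → ℂ) (om : ℝ), 0 < om ∧ Eigen s M A F om ∧ F x ≠ 0

/-- the means `(1/n) ∑_{k<n} m (f^{-k} L)` do not tend to `0` -/
def Heavy {K : ℕ} (M : Set (E K)) (m : Measure (E K)) (f : E K → E K) (L : Set (E K)) : Prop :=
  ¬ Tendsto (fun n : ℕ => (∑ k ∈ Finset.range n, (m (f^[k] ⁻¹' L ∩ M)).toReal) / n) atTop (𝓝 0)

/-- some central vector at `x` has a negative lower exponent (`n → ∞`) -/
def LowNeg {K : ℕ} (M : Set (E K)) (g : E K → E K) (Q : Fin 3 → E K → End K) (x : E K) : Prop :=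
  ∃ v, Q 1 x v = v ∧ v ≠ 0 ∧ ∃ lam < (0 : ℝ), ∃ᶠ n : ℕ in atTop,
    Real.log ‖der M (g^[n]) x v‖ / n ≤ lam

/-- some central vector at `x` has an upper exponent (`n → ∞`) that is at most `lam` -/
def UpNeg {K : ℕ} (M : Set (E K)) (g : E K → E K) (Q : Fin 3 → E K → End K) (lam : ℝ)
    (x : E K) : Prop :=
  ∃ v, Q 1 x v = v ∧ v ≠ 0 ∧ ∀ᶠ n : ℕ in atTop, Real.log ‖der M (g^[n]) x v‖ / n ≤ lam

/-- `x` is in the basin of the measure `μ` -/
def InBasin {K : ℕ} (M : Set (E K)) (g : E K → E K) (μ : Measure (E K)) (x : E K) : Prop :=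
  ∀ φ : E K → ℝ, ContinuousOn φ M →
    Tendsto (fun n : ℕ => (∑ k ∈ Finset.range n, φ (g^[k] x)) / n) atTop (𝓝 (∫ y, φ y ∂μ))

/-- `μ` is a probability measure on `M` whose basin has full measure -/
def FullBasin {K : ℕ} (M : Set (E K)) (m : Measure (E K)) (g : E K → E K)
    (μ : Measure (E K)) : Prop :=
  IsProbabilityMeasure μ ∧ μ Mᶜ = 0 ∧ ∀ᵐ x ∂m, InBasin M g μ x

/-- Negative central exponents: on a set of positive measure some central vector has a negative lower
exponent, and if there is a measure with a basin of full measure then at almost every point some central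
vector has an upper exponent below the same negative constant. -/
def Negative {K : ℕ} (M : Set (E K)) (m : Measure (E K)) (g : E K → E K)
    (Q : Fin 3 → E K → End K) : Prop :=
  (¬ ∀ᵐ x ∂m, ¬ LowNeg M g Q x) ∧
    ∀ μ : Measure (E K), FullBasin M m g μ → ∃ lam < (0 : ℝ), ∀ᵐ x ∂m, UpNeg M g Q lam x

/-- Every `C^r`-neighbourhood of `f` contains a strongly partially hyperbolic `C^s` diffeomorphism `g`
with a splitting `Q` as close as we like to the splitting `P` of `f`, such that `Negative`. -/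
def Destroyed {N K : ℕ} (r : ℕ) (s : WithTop ℕ∞) (M : Set (E K)) (m : Measure (E K))
    (f : E K → E K) (P : Fin 3 → E K → End K) : Prop :=
  ∀ (ι : Type) [Finite ι] (c : ι → Chart N K M) (L : ι → Set (E N)),
    (∀ i, IsCompact (L i) ∧ L i ⊆ (c i).V) → ∀ ε > 0,
    ∃ (g g' : E K → E K) (Q : Fin 3 → E K → End K),
      IsDiffeo s M g g' ∧ PartHyp M g g' Q ∧ CrClose r ε c L f g ∧ SplClose M ε P Q ∧
      Negative M m g Q

/-- the main theorem -/
def StmtFIN : Prop := ∀ (N K r : ℕ) (s : WithTop ℕ∞) (M : Set (E K)) (m : Measure (E K))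
  (f f' : E K → E K) (P : Fin 3 → E K → End K) (A : ℝ → E K → E K) (L : Set (E K)), 1 ≤ r →
  (r : WithTop ℕ∞) ≤ s → s ≤ ∞ → ClosedManifold N K M m → IsDiffeo s M f f' → PartHyp M f f' P →
  Flow s M A → Commutes M f A → IsCompact L → L ⊆ M → Heavy M m f L →
  (∀ x ∈ L, (Periodic M A ∧ Moved A x) ∨ Turns s M A x) → Destroyed (N := N) r s M m f P

end Pool.Agent.Helper30.CIR
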